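import Pool.Agent.Helper44.HO.Final

/-! # A bound on the covering radius of `RM(r,m)` which is explicit and uniform in the order `r` -/

set_option autoImplicit false

open scoped BigOperators

namespace Pool.Agent.Results.MP_11cd4d_lc.UniformDeficiency

/-- `N_r(f)`: the least Hamming distance from `f` to a Boolean function given by a polynomial of
total degree at most `r`. -/
noncomputable def rmDist (r m : ℕ) (f : (Fin m → ZMod 2) → ZMod 2) : ℕ :=
  sInf {d | ∃ p : MvPolynomial (Fin m) (ZMod 2), p.totalDegree ≤ r ∧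
    d = (Finset.univ.filter (fun x => f x ≠ MvPolynomial.eval x p)).card}

/-- The covering radius of the Reed-Muller code `RM(r,m)`. -/
noncomputable def covRadius (r m : ℕ) : ℕ :=
  Finset.univ.sup (fun f : (Fin m → ZMod 2) → ZMod 2 => rmDist r m f)

lemma covRadius_eq (r m : ℕ) : covRadius r m = RMC71.covRadius r m := rfl

/-- For every order `r ≥ 3` and all `m ≥ 2^18` with `m ≥ 6000 (r-2)^2 (log m)^2`,
`ρ(r,m) ≤ 2^(m-1) - (1/7) (m / (800 (r-2)^2 log m))^((r-2)/2) 2^(m/2)`. -/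
theorem result (r : ℕ) (hr : 3 ≤ r) (m : ℕ) (hm : 2 ^ 18 ≤ m)
    (hmr : 6000 * ((r - 2 : ℕ) : ℝ) ^ 2 * Real.log m ^ 2 ≤ m) :
    (covRadius r m : ℝ) ≤ 2 ^ m / 2 -
      1 / 7 * ((m : ℝ) / (800 * ((r - 2 : ℕ) : ℝ) ^ 2 * Real.log m)) ^ (((r - 2 : ℕ) : ℝ) / 2)
        * Real.sqrt (2 ^ m) := by
  obtain ⟨t, rfl⟩ : ∃ t, r = t + 2 := ⟨r - 2, by omega⟩
  have h2 : t + 2 - 2 = t := by omega
  rw [h2] at hmr ⊢
  rw [covRadius_eq]
  exact RMH.high_order_explicit t (by omega) m hm hmr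

end Pool.Agent.Results.MP_11cd4d_lc.UniformDeficiency
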